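import Pool.Agent.KS6_6.SA.Final2

set_option autoImplicit false

/-!
# Unique games with constant alphabet: semidefinite programming with `(log n) ^ c` rounds of
Sherali–Adams, and with all valid constraints on `exp ((log n) ^ c)` vertices, fails

`SaSdp R μ` (in `Pool/Agent/KS6_6/SA/Defs.lean`) is the basic semidefinite relaxation strengthened by
level `R` of the Sherali–Adams hierarchy: `μ` is a positive semidefinite matrix of numbers
`μ (u, a) (v, b)` (the pseudo-probability that `u` has the label `a` and `v` the label `b`), and there
are probability distributions on labelings for all sets of at most `R` vertices, with the pair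
marginals `μ`, which agree on the common vertices of the sets. `LocalSdp R μ` (in
`Pool/Agent/KS6_6/UG/Defs.lean`) is the basic semidefinite relaxation strengthened by all valid
constraints on at most `R` vertices: for every set of at most `R` vertices the restriction of `μ`
comes from a true probability distribution on labelings.

The theorem: for all `ε`, `δ` there is an alphabet size `q = 2 ^ l`, not depending on the number of
vertices, such that for all large `n` there are bipartite unique games with `n` vertices, even
systems of equations `L (t e) = L (s e) + b e` over the group `(Z / 2) ^ l`, in which no labeling
satisfies more than a fraction `δ` of the constraints, while there is a matrix `μ` of value at least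
`1 - ε` which satisfies `SaSdp R μ` for all `R ≤ (log n) ^ c` and `LocalSdp R μ` for all
`R ≤ exp ((log n) ^ c)`, where `c = 1 / (20 log (16 log (2 / δ) / ε))`.

Proof. The games of `LocalConstraintsSdp` (with `2 ^ h` labels, `2 ^ (K h)` vertices and `2 ^ (c' h)`
local constraints, all constants depending on `ε`, `δ` only) are composed with the code of
polynomials of bounded degree `D` on `F_2 ^ h` with values in `F_2 ^ l`, which has only
`2 ^ (l (h + 1) ^ D)` words instead of the `2 ^ (l 2 ^ h)` words of the long code. The noise of the
dictatorship test adds multiples of products of `r` random affine forms (`D = 2 r + 2`). Its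
spectral analysis is an elementary inductive argument: if a linear functional restricted to the
multiples of more than a quarter of all affine forms is a combination of evaluations at few points,
then so is the functional. For the soundness one needs a level inequality for functions of small
density, with constants not depending on `l`, when all influences are small: it follows from a
fourth moment estimate proved by symmetrization and the two-to-four hypercontractive inequality on
the cube. The solution of the relaxation for the composed game is the image of the solution for the
original game; sets of at most `R` vertices are mapped to sets of at most `R` vertices.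

For the Sherali–Adams constraints, the local distributions of the original game (random clusters,
with uniform labels on each cluster up to the shifts between the labels of close vertices) are shown
to agree on common vertices up to an error `2 ^ (- c'' h)`. The image of this family for the
composed game is mixed with a small multiple of the uniform distribution; as the alphabet has
constant size, Fourier coefficients on sets of `o(h)` vertices can then be corrected to be
consistent, keeping the distributions nonnegative and the pair marginals equal to those of one
positive semidefinite matrix.
-/

namespace Pool.Agent.Results.MP_325f1f_lc.ConstantAlphabetHierarchy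

open Finset Pool.Agent.KS6_6.UG Pool.Agent.KS6_6.SA

/-- Let `0 < ε < 1` and `0 < δ < 1`, and let `c = 1 / (20 log (16 log (2 / δ) / ε))`. There are
numbers `l` and `n₀` such that for all `n ≥ n₀` there is a unique game with vertices `Fin n` (divided
into the two parts `part v = false` and `part v = true`) and labels `Fin l → Bool`, with constraints
`L (t e) = L (s e) + b e`, such that all labelings satisfy at most a fraction `δ` of the constraints,
and a matrix `μ` of value at least `1 - ε` which is a solution of the semidefinite relaxation with
`R` rounds of Sherali–Adams for all `R ≤ (log n) ^ c`, and of the semidefinite relaxation with all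
valid constraints on at most `R` vertices for all `R ≤ exp ((log n) ^ c)`. -/
theorem result (ε δ : ℝ) (hε0 : 0 < ε) (hε1 : ε < 1) (hδ0 : 0 < δ) (hδ1 : δ < 1) :
    ∃ (l n₀ : ℕ), ∀ n : ℕ, n₀ ≤ n →
      ∃ (E : Type) (_ : Fintype E) (_ : Nonempty E) (s t : E → Fin n) (b : E → (Fin l → Bool))
        (part : Fin n → Bool), (∀ e, part (s e) = false ∧ part (t e) = true) ∧
        (∀ L : Fin n → (Fin l → Bool),
          ((univ.filter fun e => ∀ i, L (t e) i = xor (L (s e) i) (b e i)).card : ℝ) ≤
            δ * Fintype.card E) ∧
        ∃ μ : Fin n × (Fin l → Bool) → Fin n × (Fin l → Bool) → ℝ,
          (∀ R : ℕ, (R : ℝ) ≤
            Real.log n ^ (1 / (20 * Real.log (16 * Real.log (2 / δ) / ε))) → SaSdp R μ) ∧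
          (∀ R : ℕ, (R : ℝ) ≤
            Real.exp (Real.log n ^ (1 / (20 * Real.log (16 * Real.log (2 / δ) / ε)))) →
            LocalSdp R μ) ∧
          (1 - ε) * Fintype.card E ≤
            ∑ e, ∑ a, μ (s e, a) (t e, fun i => xor (a i) (b e i)) := by
  obtain ⟨l, n₀, h⟩ := Pool.Agent.KS6_6.SA.final2 ε δ hε0 hε1 hδ0 hδ1
  refine ⟨l, n₀, fun n hn => ?_⟩
  obtain ⟨E, iE1, iE2, s, t, b, part, μ, h0, h1, h2, h2', h3⟩ := h n hn
  refine ⟨E, iE1, iE2, s, t, b, part, h0, ?_, μ, h2', h2, h3⟩
  intro L
  refine le_trans (le_of_eq ?_) (h1 L)
  congr 2
  ext e
  simp only [Finset.mem_filter, Finset.mem_univ, true_and]
  constructor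
  · intro h4
    funext i
    exact h4 i
  · intro h4 i
    exact congrFun h4 i

end Pool.Agent.Results.MP_325f1f_lc.ConstantAlphabetHierarchy
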