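import Pool.Agent.KS6_62.UU.Main

/-!
# The Unique Games Conjecture for arbitrary sets of permutations

`Hard q Γ c s` (in `Pool/Agent/KS6_62/UU/Raw.lean`): every language in `NP` has a polynomial-time
many-one reduction to the gap problem (value at least `c` or at most `s`) for the unique games with
alphabet `{0, …, q - 1}` all of whose constraints are permutations from the set `Γ`.

`Spread q Γ η`: some distribution on `Γ` (uniform on a finite list) maps every letter to every letter
with probability at most `η`.

`UGC` and `GapHard c` are in `Pool/Agent/KS6_62/UU/Main.lean`.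

Proof of the main direction.  A vertex of the given game (alphabet of size `R`) becomes a cloud of
`q ^ R` vertices; the new constraints are `r l (f x) = g (r l ∘ x' ∘ π⁻¹)`, where `x'` is obtained
from `x` by rerandomising each coordinate with probability `1 / M`.  Soundness: a fourth norm
inequality for functions with small influences shows that a small set without influential coordinates
expands; large sets are few, and the spread bounds the probability that a large set meets a
large set; the influential coordinates which two neighbours have in common give a labelling of the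
given game.
-/

set_option autoImplicit false

namespace Pool.Agent.Results.MP_325f1f_lc.ConstraintUniversality

open Pool.Agent.KS6_62.UU

/-- **Universality of spread sets of permutations, and necessity of the spread.**

1. The Unique Games Conjecture is `GapHard 1`.
2. For every completeness `c ≤ 1`: if for all `ε, δ > 0` the gap problem `(c - ε, δ)` is `NP`-hard for
   the unique games with SOME alphabet and arbitrary permutations, then for all `0 < ε`,
   `0 < δ ≤ 1` it is `NP`-hard for EVERY alphabet `q` and EVERY set `Γ` of permutations of it which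
   carries a distribution with spread `(δ / 10) ^ (34 ⌈1 / ε⌉)`; and conversely.
3. Conversely, if the gap problem with soundness `s` is `NP`-hard for the constraints from `Γ`, then
   `Γ` carries a distribution with spread `s`.
4. So for every family `Fam` of sets of permutations: the gap problems `(c - ε, δ)`, `ε, δ > 0`, are
   `NP`-hard for suitable members of `Fam` if and only if `GapHard c` and `Fam` contains sets with
   arbitrarily small spread.
5. A permutation group has spread `η` if and only if all its orbits have at least `1 / η` points.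
6. For every function `Q` with `Q k ≥ k`, `GapHard c` holds if and only if for all `ε, δ > 0` the gap
   problem `(c - ε, δ)` is `NP`-hard for the constraints `y = x + s` modulo `Q k`, `0 ≤ s < k`, for
   some `k`. -/
theorem result :
    (UGC ↔ GapHard 1) ∧
    (∀ c : ℚ, c ≤ 1 → (GapHard c ↔ ∀ ε δ : ℚ, 0 < ε → 0 < δ → δ ≤ 1 →
      ∀ q : ℕ, 0 < q → ∀ Γ : Set (Equiv.Perm (Fin q)),
        Spread q Γ ((δ / 10) ^ (34 * ⌈1 / ε⌉₊)) → Hard q Γ (c - ε) δ)) ∧
    (∀ (q : ℕ) (Γ : Set (Equiv.Perm (Fin q))) (c s : ℚ), Hard q Γ c s → Spread q Γ s) ∧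
    (∀ c : ℚ, c ≤ 1 → ∀ Fam : (q : ℕ) → Set (Set (Equiv.Perm (Fin q))),
      ((∀ ε δ : ℚ, 0 < ε → 0 < δ → ∃ q : ℕ, 0 < q ∧ ∃ Γ ∈ Fam q, Hard q Γ (c - ε) δ) ↔
        GapHard c ∧ ∀ η : ℚ, 0 < η → ∃ q : ℕ, 0 < q ∧ ∃ Γ ∈ Fam q, Spread q Γ η)) ∧
    (∀ (q : ℕ) (G : Subgroup (Equiv.Perm (Fin q))) (η : ℚ),
      Spread q (G : Set (Equiv.Perm (Fin q))) η ↔
        ∀ a : Fin q, 1 ≤ η * ((MulAction.orbit G a).ncard : ℚ)) ∧
    (∀ c : ℚ, c ≤ 1 → ∀ Q : ℕ → ℕ, (∀ k, k ≤ Q k) →
      (GapHard c ↔ ∀ ε δ : ℚ, 0 < ε → 0 < δ → ∃ k : ℕ, 0 < k ∧
        Hard (Q k) {r | ∃ s < k, ∀ x, (r x : ℕ) = ((x : ℕ) + s) % Q k} (c - ε) δ)) :=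
  ⟨ugc_iff, gap_iff, fun _ _ _ _ h => spread_of_hard h, family_iff, spread_group, shifts_iff⟩

end Pool.Agent.Results.MP_325f1f_lc.ConstraintUniversality
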