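import Pool.Agent.KS6_6.UG.Param

set_option autoImplicit false

/-!
# Semidefinite programming with all valid constraints on `q ^ c` vertices does not solve unique games
with `q` labels

`LocalSdp R μ` (in `Pool/Agent/KS6_6/UG/Defs.lean`) is the basic semidefinite relaxation strengthened
by all valid constraints on at most `R` vertices: `μ` is a positive semidefinite matrix of numbers
`μ (u, a) (v, b)` (the pseudo-probability that `u` has the label `a` and `v` the label `b`), and for
every set of at most `R` vertices the restriction of `μ` comes from a true probability distribution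
on labelings. (This is the hierarchy of Raghavendra and Steurer with local constraints on the
vectors; it contains all triangle inequalities and so on.)

The theorem: for all `ε`, `δ` there are unique games, even systems of equations
`M (t e) = L (s e) + c e` over the group `(Z / 2) ^ h`, with `q = 2 ^ h` labels and `n = 2 ^ k`
vertices on each side, in which no labeling satisfies more than a fraction `δ` of the constraints,
while the relaxation of level `R = q ^ (ε / (2 ^ 20 log (2 / δ)))` has value at least `1 - ε`. Here `q`
is any large power of two and `n` any power of two with `n ≥ q ^ (2 ^ (2 ^ 20 log (2 / δ) / ε))`.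
In particular `q` can be a small power of `n`, and then `R` is a power `n ^ c` with `c > 0` depending
on `ε` and `δ` only.

Proof. The vertices are the cosets of a linear code `H` of size `q` in the cube, all of whose nonzero
words have almost half of the bits equal to one; a label is an element of the coset. The edges move a
point of the cube by a small noise. A labeling is a set of density `1 / q`, and small sets expand
by the hypercontractive inequality. For the relaxation take the kernel `((1 + s) / 2) ^ m`, `s` the
square of the correlation of two points, which is the probability that the points agree on `m`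
random pairs of coordinates, and drop the terms of degree less than `m / 8`; it becomes almost
orthogonal on cosets, and it is made exactly orthogonal by rescaling the Fourier coefficients in
the direction of `H`. For at most `R` vertices, two vertices at small distance get labels at small
distance if these agree on the random pairs of coordinates; with high probability this is an
equivalence relation. The resulting pair marginals differ a little from those of the kernel. The
error is not small compared to `1 / q ^ 2`, but up to a small part it has the right sign, and
every one-sided error can be corrected exactly.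
-/

namespace Pool.Agent.Results.MP_325f1f_lc.LocalConstraintsSdp

open Finset Pool.Agent.KS6_6.UG

/-- Let `0 < ε < 1` and `0 < δ < 1`, let `h ≥ 2 ^ 20 log (2 / δ) log (2 / ε) / ε` and
`k ≥ 2 ^ (2 ^ 20 log (2 / δ) / ε) h`. There is a unique game with `2 ^ k` vertices on each side and
`2 ^ h` labels, with constraints `M (t e) = L (s e) + c e`, such that all labelings satisfy at most a
fraction `δ` of the constraints, and a solution `μ` of value at least `1 - ε` of the semidefinite
relaxation with all valid constraints on at most `R` vertices for all
`R ≤ (2 ^ h) ^ (ε / (2 ^ 20 log (2 / δ)))`. -/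
theorem result (ε δ : ℝ) (h k : ℕ) (hε0 : 0 < ε) (hε1 : ε < 1) (hδ0 : 0 < δ) (hδ1 : δ < 1)
    (hh : 2 ^ 20 * (Real.log (2 / δ) * Real.log (2 / ε)) / ε ≤ h)
    (hk : h * (2 : ℝ) ^ (2 ^ 20 * Real.log (2 / δ) / ε) ≤ k) :
    ∃ (E : Type) (_ : Fintype E) (_ : Nonempty E) (s t : E → (Fin k → Bool))
      (c : E → (Fin h → Bool)),
      (∀ L M : (Fin k → Bool) → (Fin h → Bool),
        ((univ.filter fun e => ∀ i, M (t e) i = xor (L (s e) i) (c e i)).card : ℝ) ≤
          δ * Fintype.card E) ∧
      ∃ μ : ((Fin k → Bool) ⊕ (Fin k → Bool)) × (Fin h → Bool) →
          ((Fin k → Bool) ⊕ (Fin k → Bool)) × (Fin h → Bool) → ℝ,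
        (∀ R : ℕ, (R : ℝ) ≤ ((2 : ℝ) ^ h) ^ (ε / (2 ^ 20 * Real.log (2 / δ))) → LocalSdp R μ) ∧
        (1 - ε) * Fintype.card E ≤
          ∑ e, ∑ a, μ (Sum.inl (s e), a) (Sum.inr (t e), fun i => xor (a i) (c e i)) := by
  obtain ⟨φ, T, μ, h1, h2, h3⟩ := main ε δ h k hε0 hε1 hδ0 hδ1 hh hk
  have hh0 : 0 < h := by
    rcases Nat.eq_zero_or_pos h with h0 | h0
    · exfalso
      subst h0
      have hl1 : 0 < Real.log (2 / δ) := Real.log_pos (by rw [lt_div_iff₀ hδ0]; linarith)
      have hl2 : 0 < Real.log (2 / ε) := Real.log_pos (by rw [lt_div_iff₀ hε0]; linarith)
      have : 0 < 2 ^ 20 * (Real.log (2 / δ) * Real.log (2 / ε)) / ε := by positivity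
      rw [Nat.cast_zero] at hh
      linarith
    · exact h0
  have hne : Nonempty (Edg h k T) :=
    ⟨((fun _ => false), fun _ => (Sum.inl ⟨0, hh0⟩, false))⟩
  refine ⟨Edg h k T, inferInstance, hne, fun e => e.1, fun e => tgt φ e, fun e => nuA e.2,
    ?_, μ, h2, ?_⟩
  · intro L M
    refine le_trans (le_of_eq ?_) (h1 L M)
    congr 2
    ext e
    simp only [Finset.mem_filter, Finset.mem_univ, true_and]
    constructor
    · intro h4
      funext i
      exact (h4 i).symm
    · intro h4 i
      exact (congrFun h4 i).symm
  · exact h3

end Pool.Agent.Results.MP_325f1f_lc.LocalConstraintsSdp
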