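import Pool.Agent.KS6_62.QQ.Std
import Pool.Agent.KS6_62.QQ.Perfect

/-!
# Quantum edge queries to a unique game on a known constraint graph

The constraints are `y (d e) = x (s e) + c e` over `ZMod q`.  The constraint graph is known, the
shifts `c` are the input, and a query asks for the shift of one edge.

* Completeness one: `O(log |E| / η)` non-adaptive classical queries suffice on every graph.
* Completeness `1 - ε`: quantum algorithms need `n ^ Ω(ε / log (1/δ))` queries.

A quantum algorithm makes its queries in superposition, with the usual oracle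
`|e, b, w⟩ ↦ |e, b + c e, w⟩`; between the queries it applies arbitrary unitaries, on a workspace of
arbitrary size, so the only resource which is counted is the number of queries.  (With oracle access
to all linear forms in `c` one quantum query finds the whole of `c`, so the model has to be that of
edge queries.)

Proof of the lower bound (`Pool/Agent/KS6_62/QQ`).  Compare uniform shifts with planted shifts, in
which a random set of edges is noisy.  The amplitudes after `t` queries are combinations of
characters `c ↦ χ(⟨S, c⟩)` with `|supp S| ≤ t`.  For a fixed set of noisy edges call `S` bad if a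
clean path of length in `[r/2, r]` joins two vertices of its support.  Two different vectors which
are not bad do not differ by a flow with clean support (such a flow contains a path of length `r`,
and one half of it would make one of the two vectors bad), so the planted distribution and the
uniform one give the same norm to a state without bad characters.  A hybrid argument in the Fourier
basis bounds the norm, under the planted distribution, of the part with bad characters; a given
vector of small support is bad with small probability, because short paths are determined by their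
ends.
-/

set_option autoImplicit false

namespace Pool.Agent.Results.MP_325f1f_lc.QuantumQueries

open Finset

open Classical in
/-- The number of edges satisfied by the labeling `x`, `y` when the shifts are `c`. -/
noncomputable def sat {q : ℕ} {U V E : Type} [Fintype E] (s : E → U) (d : E → V) (c : E → ZMod q)
    (x : U → ZMod q) (y : V → ZMod q) : ℕ :=
  (univ.filter fun e => y (d e) = x (s e) + c e).card

/-- The constraint graph: the bipartite graph in which `s e` and `d e` are adjacent. -/
def constraintGraph {U V E : Type} (s : E → U) (d : E → V) : SimpleGraph (U ⊕ V) :=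
  SimpleGraph.fromRel fun a b => ∃ e, a = Sum.inl (s e) ∧ b = Sum.inr (d e)

/-- A classical non-adaptive randomised algorithm: with probability `prob o` it asks for the shifts
of the edges in `ask o`, and it accepts if `acc o` holds, which depends only on these shifts. -/
structure ClassicalAlgorithm (q : ℕ) (E : Type) where
  Ω : Type
  fin : Fintype Ω
  prob : Ω → ℝ
  nonneg : ∀ o, 0 ≤ prob o
  sum_one : ∑ o, prob o = 1
  ask : Ω → Finset E
  acc : Ω → (E → ZMod q) → Prop
  loc : ∀ o c c', (∀ e ∈ ask o, c e = c' e) → (acc o c ↔ acc o c')

open Classical in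
/-- The probability that the classical algorithm accepts the shifts `c`. -/
noncomputable def ClassicalAlgorithm.accept {q : ℕ} {E : Type} (A : ClassicalAlgorithm q E)
    (c : E → ZMod q) : ℝ :=
  letI := A.fin
  ∑ o, A.prob o * if A.acc o c then 1 else 0

/-- A quantum query algorithm. The basis states `(e, b, w)` consist of an edge `e`, an answer
register `b` and a state `w` of the workspace. It starts in the unit vector `start`, applies the
unitary matrix `gate t` after query number `t`, and accepts if the final measurement in the
computational basis gives an element of `accepting`. -/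
structure QuantumAlgorithm (q : ℕ) [NeZero q] (E : Type) [Fintype E] [DecidableEq E] where
  work : ℕ
  start : E × ZMod q × Fin work → ℂ
  start_unit : ∑ z, ‖start z‖ ^ 2 = 1
  gate : ℕ → Matrix (E × ZMod q × Fin work) (E × ZMod q × Fin work) ℂ
  gate_unitary : ∀ t, gate t ∈ Matrix.unitaryGroup (E × ZMod q × Fin work) ℂ
  accepting : Set (E × ZMod q × Fin work)

/-- The oracle for the shifts `c`, which maps the basis state `(e, b, w)` to `(e, b + c e, w)`. -/
def oracle {q : ℕ} {E W : Type} (c : E → ZMod q) (ψ : E × ZMod q × W → ℂ) :
    E × ZMod q × W → ℂ :=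
  fun z => ψ (z.1, z.2.1 - c z.1, z.2.2)

/-- The state after `t` queries to the shifts `c`. -/
def QuantumAlgorithm.state {q : ℕ} [NeZero q] {E : Type} [Fintype E] [DecidableEq E]
    (A : QuantumAlgorithm q E) (c : E → ZMod q) : ℕ → E × ZMod q × Fin A.work → ℂ
  | 0 => A.start
  | t + 1 => (A.gate t).mulVec (oracle c (A.state c t))

open Classical in
/-- The probability that the algorithm accepts the shifts `c` after `T` queries. -/
noncomputable def QuantumAlgorithm.accept {q : ℕ} [NeZero q] {E : Type} [Fintype E]
    [DecidableEq E] (A : QuantumAlgorithm q E) (T : ℕ) (c : E → ZMod q) : ℝ :=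
  ∑ z, if z ∈ A.accepting then ‖A.state c T z‖ ^ 2 else 0

/-- With `T` queries the algorithm distinguishes, with error at most `1/3`, the shifts for which
some labeling satisfies at least a fraction `1 - ε` of the edges from those for which no labeling
satisfies more than a fraction `δ`. -/
def Decides {q : ℕ} [NeZero q] {U V E : Type} [Fintype E] [DecidableEq E]
    (A : QuantumAlgorithm q E) (T : ℕ) (s : E → U) (d : E → V) (ε δ : ℝ) : Prop :=
  (∀ c, (∃ x y, (1 - ε) * Fintype.card E ≤ (sat s d c x y : ℝ)) → 2 / 3 ≤ A.accept T c) ∧
    ∀ c, (∀ x y, (sat s d c x y : ℝ) ≤ δ * Fintype.card E) → A.accept T c ≤ 1 / 3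

theorem graph_eq {U V E : Type} (s : E → U) (d : E → V) :
    constraintGraph s d = Pool.Agent.T6.H63.LD.gr s d Set.univ := by
  ext a b
  rw [constraintGraph, SimpleGraph.fromRel_adj]
  constructor
  · rintro ⟨-, ⟨e, h1, h2⟩ | ⟨e, h1, h2⟩⟩
    · exact ⟨e, Set.mem_univ _, Or.inl ⟨h1, h2⟩⟩
    · exact ⟨e, Set.mem_univ _, Or.inr ⟨h2, h1⟩⟩
  · rintro ⟨e, -, ⟨h1, h2⟩ | ⟨h1, h2⟩⟩
    · refine ⟨?_, Or.inl ⟨e, h1, h2⟩⟩
      rw [h1, h2]
      simp
    · refine ⟨?_, Or.inr ⟨e, h2, h1⟩⟩
      rw [h1, h2]
      simp

theorem state_eq {q : ℕ} [NeZero q] {E : Type} [Fintype E] [DecidableEq E]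
    (A : QuantumAlgorithm q E) (c : E → ZMod q) (t : ℕ) :
    A.state c t = Pool.Agent.KS6_62.QQ.srun A.gate A.start c t := by
  induction t with
  | zero => rfl
  | succ t ih => rw [QuantumAlgorithm.state, Pool.Agent.KS6_62.QQ.srun, ih]; rfl

/-- Edge queries to the shifts of a unique game on a known constraint graph.

1. Completeness one. On every constraint graph, for every modulus `q` and every `0 < η ≤ 1`, a
classical non-adaptive algorithm with at most `4 log |E| / η + 5` queries accepts all satisfiable
instances with probability `1`, and accepts every instance with probability at most `η` plus the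
fraction of the edges satisfied by some labeling. (With `η = 1/12` and soundness `1/4` its error is
at most `1/3`.)

2. Completeness `1 - ε`. Let `0 < δ ≤ 1/4`, `0 < ε ≤ 1`, let `q ≥ δ ^ (-3)` be a prime, and let the
constraint graph be without parallel edges, of girth larger than `2 r` and with
`δ |E| ≥ 3 (|U| + |V| + 1)`. Every quantum algorithm which distinguishes value at least `1 - ε` from
value at most `δ` by `T` queries satisfies `exp (ε r / 72) ≤ 6 T`.

3. Consequently, for all `0 < δ ≤ 1/4`, `0 < ε ≤ 1` and `N ≥ δ ^ (-7)` there is a constraint graph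
on `N + N` vertices with at most `15 N / δ` edges such that for every prime `q ≥ δ ^ (-3)` every
such algorithm satisfies `N ^ (ε / (432 log (1/δ))) ≤ 7 T`. -/
theorem result :
    (∀ (U V E : Type) [Fintype U] [Fintype V] [Fintype E] [Nonempty E] (s : E → U) (d : E → V)
      (q : ℕ) (η : ℝ), 0 < η → η ≤ 1 →
      ∃ A : ClassicalAlgorithm q E,
        (∀ o, ((A.ask o).card : ℝ) ≤ 4 * Real.log (Fintype.card E) / η + 5) ∧
        ∀ c : E → ZMod q, ((∃ x y, sat s d c x y = Fintype.card E) → A.accept c = 1) ∧
          ∃ x y, A.accept c ≤ η + (sat s d c x y : ℝ) / Fintype.card E) ∧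
    (∀ (U V E : Type) [Fintype U] [Fintype V] [Fintype E] [DecidableEq E] (s : E → U) (d : E → V)
      (r : ℕ) (δ ε : ℝ) (q : ℕ) [NeZero q], q.Prime →
      (∀ e e', s e = s e' → d e = d e' → e = e') →
      ((2 * r : ℕ) : ℕ∞) < (constraintGraph s d).egirth →
      0 < δ → δ ≤ 1 / 4 → 0 < ε → ε ≤ 1 →
      3 * ((Fintype.card U : ℝ) + Fintype.card V + 1) ≤ δ * Fintype.card E →
      1 / δ ^ 3 ≤ (q : ℝ) →
      ∀ (T : ℕ) (A : QuantumAlgorithm q E), Decides A T s d ε δ →
        Real.exp (ε * r / 72) ≤ 6 * T) ∧
    (∀ (δ ε : ℝ) (N : ℕ), 0 < δ → δ ≤ 1 / 4 → 0 < ε → ε ≤ 1 → 1 / δ ^ 7 ≤ (N : ℝ) →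
      ∃ H : Finset (Fin N × Fin N), (H.card : ℝ) ≤ 15 * N / δ ∧
        ∀ (q : ℕ) [NeZero q], q.Prime → 1 / δ ^ 3 ≤ (q : ℝ) →
          ∀ (T : ℕ) (A : QuantumAlgorithm q H),
          Decides A T (fun e : H => e.1.1) (fun e : H => e.1.2) ε δ →
          (N : ℝ) ^ (ε / (432 * Real.log (1 / δ))) ≤ 7 * T) := by
  classical
  refine ⟨?_, ?_, ?_⟩
  · intro U V E _ _ _ _ s d q η hη hη1
    obtain ⟨ask, acc, h1, h2, h3, h4⟩ := Pool.Agent.KS6_62.QQ.perfect s d q hη hη1
    have hE : (0 : ℝ) < Fintype.card E := by
      exact_mod_cast Fintype.card_pos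
    refine ⟨⟨E, inferInstance, fun _ => 1 / Fintype.card E, fun _ => by positivity, ?_, ask, acc,
      h1⟩, h2, ?_⟩
    · rw [sum_const, card_univ, nsmul_eq_mul]
      field_simp
    intro c
    have hacc : (⟨E, inferInstance, fun _ => 1 / Fintype.card E, fun _ => by positivity, by
        rw [sum_const, card_univ, nsmul_eq_mul]
        field_simp, ask, acc, h1⟩ : ClassicalAlgorithm q E).accept c =
        ((univ.filter fun o => acc o c).card : ℝ) / Fintype.card E := by
      unfold ClassicalAlgorithm.accept
      rw [← mul_sum, Finset.sum_boole]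
      field_simp
    rw [hacc]
    constructor
    · rintro ⟨x, y, hxy⟩
      have h5 : ∀ e, y (d e) = x (s e) + c e := by
        rw [sat, card_eq_iff_eq_univ, filter_eq_self] at hxy
        exact fun e => hxy e (mem_univ e)
      have h6 : (univ.filter fun o => acc o c) = univ :=
        filter_eq_self.2 fun o _ => h3 c ⟨x, y, h5⟩ o
      rw [h6, card_univ]
      field_simp
    · obtain ⟨x, y, hxy⟩ := h4 c
      refine ⟨x, y, ?_⟩
      rw [div_le_iff₀ hE, add_mul, div_mul_cancel₀ _ hE.ne']
      unfold sat
      convert hxy
  · intro U V E _ _ _ _ s d r δ ε q _ hqp hinj hg hδ hδ1 hε hε1 hm hq T A hA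
    have : Fact q.Prime := ⟨hqp⟩
    rw [graph_eq] at hg
    refine Pool.Agent.KS6_62.QQ.std_lower hinj hg hδ hδ1 hε hε1 hm hq T A.gate A.gate_unitary
      A.start A.start_unit A.accepting ?_ ?_
    · intro c hc
      have h1 := hA.1 c (by
        obtain ⟨x, y, hxy⟩ := hc
        refine ⟨x, y, ?_⟩
        unfold sat
        convert hxy)
      unfold QuantumAlgorithm.accept at h1
      simp only [state_eq] at h1
      convert h1
    · intro c hc
      have h1 := hA.2 c (by
        intro x y
        unfold sat
        convert hc x y)
      unfold QuantumAlgorithm.accept at h1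
      simp only [state_eq] at h1
      convert h1
  · intro δ ε N hδ hδ1 hε hε1 hN
    obtain ⟨H, hH, hlow⟩ := Pool.Agent.KS6_62.QQ.std_graph hδ hδ1 hε hε1 N hN
    refine ⟨H, hH, ?_⟩
    intro q _ hqp hq T A hA
    have : Fact q.Prime := ⟨hqp⟩
    refine hlow q hq T (Fin A.work) A.gate A.gate_unitary A.start A.start_unit A.accepting ?_ ?_
    · intro c hc
      have h1 := hA.1 c (by
        obtain ⟨x, y, hxy⟩ := hc
        refine ⟨x, y, ?_⟩
        unfold sat
        convert hxy)
      unfold QuantumAlgorithm.accept at h1
      simp only [state_eq] at h1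
      convert h1
    · intro c hc
      have h1 := hA.2 c (by
        intro x y
        unfold sat
        convert hc x y)
      unfold QuantumAlgorithm.accept at h1
      simp only [state_eq] at h1
      convert h1

end Pool.Agent.Results.MP_325f1f_lc.QuantumQueries
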